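import Pool.Agent.Helper16.DIL.Spec

/-!
# DIL, part OSC: the integral of an exponential
-/

set_option autoImplicit false

namespace Pool.Agent.Helper53.DIL.OSC

open Pool.Agent.Helper16.DIL

theorem main : S_OSC := by
  intro c f u L hf _
  set z : ℂ := -((f : ℂ) * Complex.I) with hz
  have hz0 : z ≠ 0 := by
    rw [hz]
    simp [hf, Complex.I_ne_zero]
  have hnz : ‖z‖ = |f| := by
    rw [hz, norm_neg, norm_mul, Complex.norm_I, mul_one, Complex.norm_real, Real.norm_eq_abs]
  have h1 : ∀ l : ℝ, Complex.exp ((-(c + l * f) : ℝ) * Complex.I)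
      = Complex.exp ((-c : ℝ) * Complex.I) * Complex.exp (z * (l : ℂ)) := by
    intro l
    rw [← Complex.exp_add, hz]
    congr 1
    push_cast
    ring
  have h2 : ∀ l : ℝ, ‖Complex.exp (z * (l : ℂ))‖ = 1 := by
    intro l
    have : z * (l : ℂ) = ((-(f * l) : ℝ) : ℂ) * Complex.I := by
      rw [hz]
      push_cast
      ring
    rw [this, Complex.norm_exp_ofReal_mul_I]
  have h3 : ∫ l in u..(u + L), Complex.exp ((-(c + l * f) : ℝ) * Complex.I)
      = Complex.exp ((-c : ℝ) * Complex.I) *
        ((Complex.exp (z * ((u + L : ℝ) : ℂ)) - Complex.exp (z * (u : ℂ))) / z) := by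
    rw [← integral_exp_mul_complex hz0, ← intervalIntegral.integral_const_mul]
    exact intervalIntegral.integral_congr (fun l _ => h1 l)
  rw [h3, norm_mul, Complex.norm_exp_ofReal_mul_I, one_mul, norm_div, hnz]
  have h4 : ‖Complex.exp (z * ((u + L : ℝ) : ℂ)) - Complex.exp (z * (u : ℂ))‖ ≤ 2 := by
    refine (norm_sub_le _ _).trans ?_
    rw [h2, h2]
    norm_num
  exact div_le_div_of_nonneg_right h4 (abs_nonneg f)

end Pool.Agent.Helper53.DIL.OSC
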